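import Pool.Agent.Q123.KB.Kod

set_option autoImplicit false

/-!
Symbolic powers over all associated primes and the symbolic defect.
-/

namespace Pool.Agent.Q123.SD

open MvPolynomial Pool.Agent.Q123.KB Finset

/-- The `n`-th symbolic power of `I`, taken over all associated primes `p` of `R ⧸ I`: the elements `f`
of `I ^ n R_p ∩ R` for all `p`, i.e. for every `p` there is an element `s` outside `p` with
`s f ∈ I ^ n`. -/
def symb {K : Type*} [Field K] {r : ℕ} (I : Ideal (MvPolynomial (Fin r) K)) (n : ℕ) :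
    Ideal (MvPolynomial (Fin r) K) where
  carrier := {f | ∀ p ∈ associatedPrimes (MvPolynomial (Fin r) K) (MvPolynomial (Fin r) K ⧸ I),
    ∃ s, s ∉ p ∧ s * f ∈ I ^ n}
  zero_mem' := fun p hp => ⟨1, (Ideal.ne_top_iff_one p).1 hp.1.1, by simp⟩
  add_mem' := by
    intro f g hf hg p hp
    obtain ⟨s, hs, hs'⟩ := hf p hp
    obtain ⟨t, ht, ht'⟩ := hg p hp
    refine ⟨s * t, fun h => (hp.1.mem_or_mem h).elim hs ht, ?_⟩
    have : s * t * (f + g) = t * (s * f) + s * (t * g) := by ring
    rw [this]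
    exact Ideal.add_mem _ (Ideal.mul_mem_left _ _ hs') (Ideal.mul_mem_left _ _ ht')
  smul_mem' := by
    intro c f hf p hp
    obtain ⟨s, hs, hs'⟩ := hf p hp
    refine ⟨s, hs, ?_⟩
    have : s * (c • f) = c * (s * f) := by rw [smul_eq_mul]; ring
    rw [this]
    exact Ideal.mul_mem_left _ _ hs'

/-- the ideal generated by the variables -/
noncomputable def maxIdeal (K : Type*) [Field K] (r : ℕ) : Ideal (MvPolynomial (Fin r) K) :=
  Ideal.span (Set.range X)

/-- The symbolic defect `dim_K I^(n) / (I ^ n + m I^(n))`, the minimal number of generators of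
`I^(n) / I ^ n`. -/
noncomputable def sdef {K : Type*} [Field K] {r : ℕ} (I : Ideal (MvPolynomial (Fin r) K)) (n : ℕ) :
    ℕ :=
  Module.finrank K (↥(Submodule.restrictScalars K (symb I n)) ⧸
    (Submodule.restrictScalars K (I ^ n ⊔ maxIdeal K r * symb I n)).submoduleOf
      (Submodule.restrictScalars K (symb I n)))

variable {K : Type*} [Field K] {r : ℕ}

/-- the dimension of a quotient of two spaces spanned by monomials -/
theorem finrank_quot (M N : Submodule K (MvPolynomial (Fin r) K)) (A B : (Fin r →₀ ℕ) → Prop)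
    (hM : ∀ f, f ∈ M ↔ ∀ c ∈ f.support, A c) (hN : ∀ f, f ∈ N ↔ ∀ c ∈ f.support, B c)
    (S : Finset (Fin r →₀ ℕ)) (hS : ∀ c, c ∈ S ↔ A c ∧ ¬ B c) :
    Module.finrank K (↥M ⧸ N.submoduleOf M) = S.card := by
  classical
  let φ : ↥M →ₗ[K] ({c // c ∈ S} → K) :=
    { toFun := fun f c => coeff c.1 f.1
      map_add' := fun f g => by ext1 c; exact coeff_add _ _ _
      map_smul' := fun a f => by ext1 c; exact coeff_smul _ _ _ }
  have hsurj : Function.Surjective φ := by
    intro g
    have hc : ∀ c, coeff c (∑ d : {c // c ∈ S}, monomial d.1 (g d)) =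
        if h : c ∈ S then g ⟨c, h⟩ else 0 := by
      intro c
      rw [coeff_sum]
      simp_rw [coeff_monomial]
      split_ifs with h
      · rw [Finset.sum_eq_single ⟨c, h⟩]
        · rw [if_pos rfl]
        · intro d _ hd
          rw [if_neg]
          intro h1
          exact hd (Subtype.ext h1)
        · intro h1; exact absurd (Finset.mem_univ _) h1
      · refine Finset.sum_eq_zero fun d _ => ?_
        rw [if_neg]
        intro h1
        exact h (h1 ▸ d.2)
    refine ⟨⟨∑ d : {c // c ∈ S}, monomial d.1 (g d), (hM _).2 fun c hc' => ?_⟩, ?_⟩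
    · rw [mem_support_iff, hc] at hc'
      split_ifs at hc' with h
      · exact ((hS c).1 h).1
      · exact absurd rfl hc'
    · ext1 c
      change coeff c.1 _ = g c
      rw [hc, dif_pos c.2]
  have hker : LinearMap.ker φ = N.submoduleOf M := by
    ext f
    rw [LinearMap.mem_ker]
    change φ f = 0 ↔ f.1 ∈ N
    rw [hN]
    constructor
    · intro h c hc
      by_contra hB
      have h1 := (hM _).1 f.2 c hc
      have h2 := congrFun h ⟨c, (hS c).2 ⟨h1, hB⟩⟩
      exact (mem_support_iff.1 hc) h2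
    · intro h
      ext1 c
      change coeff c.1 f.1 = 0
      by_contra h1
      exact ((hS c.1).1 c.2).2 (h c.1 (mem_support_iff.2 h1))
  rw [← hker, (φ.quotKerEquivOfSurjective hsurj).finrank_eq, Module.finrank_pi, Fintype.card_coe]

/-- multiplication by a polynomial with a term in the variable `z` only -/
theorem sat {z : Fin r} {U : (Fin r →₀ ℕ) → Prop}
    (hU : ∀ c c' : Fin r →₀ ℕ, U c → (∀ i, i ≠ z → c i ≤ c' i) → U c')
    {s f : MvPolynomial (Fin r) K} (hs : ∃ d ∈ s.support, ∀ i, i ≠ z → d i = 0)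
    (h : ∀ c ∈ (s * f).support, U c) : ∀ c ∈ f.support, U c := by
  classical
  by_contra hcon
  push Not at hcon
  obtain ⟨c₁, hc₁, hc₁'⟩ := hcon
  obtain ⟨c₀, hc₀, hmin₀⟩ := Finset.exists_min_image (f.support.filter fun c => ¬ U c)
    (fun c => ∑ i ∈ Finset.univ.erase z, c i) ⟨c₁, Finset.mem_filter.2 ⟨hc₁, hc₁'⟩⟩
  obtain ⟨c, hc, hmin⟩ := Finset.exists_min_image
    (f.support.filter fun c => ¬ U c ∧ ∀ i, i ≠ z → c i = c₀ i)
    (fun c => c z) ⟨c₀, Finset.mem_filter.2 ⟨(Finset.mem_filter.1 hc₀).1,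
      (Finset.mem_filter.1 hc₀).2, fun _ _ => rfl⟩⟩
  obtain ⟨d₁, hd₁, hd₁'⟩ := hs
  obtain ⟨d, hd, hdmin⟩ := Finset.exists_min_image (s.support.filter fun d => ∀ i, i ≠ z → d i = 0)
    (fun d => d z) ⟨d₁, Finset.mem_filter.2 ⟨hd₁, hd₁'⟩⟩
  obtain ⟨hc1, hc2, hc3⟩ := Finset.mem_filter.1 hc
  obtain ⟨hd1, hd2⟩ := Finset.mem_filter.1 hd
  have hcoef : coeff (d + c) (s * f) = coeff d s * coeff c f := by
    rw [coeff_mul, Finset.sum_eq_single (d, c)]
    · rintro ⟨u, v⟩ huv hne
      rw [Finset.HasAntidiagonal.mem_antidiagonal] at huv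
      by_contra h0
      have hu : u ∈ s.support := mem_support_iff.2 (fun h1 => h0 (by simp [h1]))
      have hv : v ∈ f.support := mem_support_iff.2 (fun h1 => h0 (by simp [h1]))
      have huv' : ∀ i, u i + v i = d i + c i := fun i => by
        have := DFunLike.congr_fun huv i
        simpa using this
      have h1 : ∀ i, i ≠ z → v i ≤ c i := fun i hi => by
        have := huv' i
        rw [hd2 i hi] at this
        omega
      have h2 : ¬ U v := fun h3 => hc2 (hU v c h3 h1)
      have h3 := hmin₀ v (Finset.mem_filter.2 ⟨hv, h2⟩)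
      have h4 : ∑ i ∈ Finset.univ.erase z, c₀ i = ∑ i ∈ Finset.univ.erase z, c i :=
        Finset.sum_congr rfl fun i hi => (hc3 i (Finset.ne_of_mem_erase hi)).symm
      have h5 : ∑ i ∈ Finset.univ.erase z, v i = ∑ i ∈ Finset.univ.erase z, c i :=
        le_antisymm (Finset.sum_le_sum fun i hi => h1 i (Finset.ne_of_mem_erase hi)) (h4 ▸ h3)
      have h6 := (Finset.sum_eq_sum_iff_of_le
        (fun i hi => h1 i (Finset.ne_of_mem_erase hi))).1 h5
      have h7 : ∀ i, i ≠ z → v i = c i := fun i hi =>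
        h6 i (Finset.mem_erase.2 ⟨hi, Finset.mem_univ i⟩)
      have h8 : ∀ i, i ≠ z → u i = 0 := fun i hi => by
        have := huv' i
        rw [hd2 i hi, h7 i hi] at this
        omega
      have h9 := hdmin u (Finset.mem_filter.2 ⟨hu, h8⟩)
      have h10 := hmin v (Finset.mem_filter.2 ⟨hv, h2, fun i hi => by rw [h7 i hi, hc3 i hi]⟩)
      have h11 := huv' z
      apply hne
      rw [Prod.mk.injEq]
      constructor
      · ext i
        by_cases hi : i = z
        · rw [hi]; omega
        · rw [h8 i hi, hd2 i hi]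
      · ext i
        by_cases hi : i = z
        · rw [hi]; omega
        · exact h7 i hi
    · intro h1
      exfalso
      apply h1
      rw [Finset.HasAntidiagonal.mem_antidiagonal]
  have h1 : d + c ∈ (s * f).support := by
    rw [mem_support_iff, hcoef]
    exact mul_ne_zero (mem_support_iff.1 hd1) (mem_support_iff.1 hc1)
  exact hc2 (hU _ _ (h _ h1) fun i hi => by rw [Finsupp.add_apply, hd2 i hi, zero_add])

/-- the prime ideal generated by the variables except `z` -/
noncomputable def pr (K : Type*) [Field K] {r : ℕ} (z : Fin r) : Ideal (MvPolynomial (Fin r) K) :=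
  Ideal.span (X '' {i | i ≠ z})

theorem mem_pr (z : Fin r) (f : MvPolynomial (Fin r) K) :
    f ∈ pr K z ↔ ∀ c ∈ f.support, ∃ i, i ≠ z ∧ c i ≠ 0 := by
  unfold pr
  rw [mem_ideal_span_X_image]
  rfl

theorem notMem_pr {z : Fin r} {f : MvPolynomial (Fin r) K} (h : f ∉ pr K z) :
    ∃ d ∈ f.support, ∀ i, i ≠ z → d i = 0 := by
  rw [mem_pr] at h
  push Not at h
  exact h

theorem pr_prime (z : Fin r) : (pr K z).IsPrime := by
  constructor
  · rw [Ideal.ne_top_iff_one, mem_pr]
    push Not
    refine ⟨0, ?_, fun i _ => rfl⟩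
    rw [mem_support_iff]
    simp
  · intro f g hfg
    by_contra hcon
    rw [not_or] at hcon
    apply hcon.2
    rw [mem_pr]
    refine sat (z := z) (U := fun c => ∃ i, i ≠ z ∧ c i ≠ 0) ?_ (notMem_pr hcon.1)
      ((mem_pr z _).1 hfg)
    rintro c c' ⟨i, hi, h⟩ hle
    refine ⟨i, hi, ?_⟩
    have := hle i hi
    omega

theorem mem_ass_iff (I p : Ideal (MvPolynomial (Fin r) K)) :
    p ∈ associatedPrimes (MvPolynomial (Fin r) K) (MvPolynomial (Fin r) K ⧸ I) ↔
      p.IsPrime ∧ ∃ g, ∀ t, t ∈ p ↔ t * g ∈ I := by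
  rw [AssociatedPrimes.mem_iff, isAssociatedPrime_iff]
  have key : ∀ g t : MvPolynomial (Fin r) K,
      t ∈ (⊥ : Submodule (MvPolynomial (Fin r) K) (MvPolynomial (Fin r) K ⧸ I)).colon
        {(Ideal.Quotient.mk I g : MvPolynomial (Fin r) K ⧸ I)} ↔ t * g ∈ I := by
    intro g t
    rw [Submodule.mem_colon_singleton, Submodule.mem_bot]
    rw [← Ideal.Quotient.eq_zero_iff_mem, map_mul]
    rfl
  refine and_congr_right fun _ => ?_
  constructor
  · rintro ⟨x, hx⟩
    obtain ⟨g, rfl⟩ := Ideal.Quotient.mk_surjective x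
    exact ⟨g, fun t => by rw [hx]; exact key g t⟩
  · rintro ⟨g, hg⟩
    refine ⟨Ideal.Quotient.mk I g, ?_⟩
    ext t
    rw [hg, key]

/-- the monomials of a product with a monomial -/
theorem mul_mono_iff (P : (Fin r →₀ ℕ) → Prop) (t : MvPolynomial (Fin r) K) (s : Fin r →₀ ℕ) :
    (∀ c ∈ (t * monomial s (1 : K)).support, P c) ↔ ∀ c ∈ t.support, P (c + s) := by
  constructor
  · intro h c hc
    refine h _ ?_
    rw [mem_support_iff, coeff_mul_monomial, mul_one]
    exact mem_support_iff.1 hc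
  · intro h c hc
    rw [mem_support_iff, coeff_mul_monomial'] at hc
    split_ifs at hc with h1
    · rw [mul_one] at hc
      have := h _ (mem_support_iff.2 hc)
      rwa [tsub_add_cancel_of_le h1] at this
    · exact absurd rfl hc

end Pool.Agent.Q123.SD
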