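import Pool.Agent.Q123.SD.Ex

set_option autoImplicit false

/-!
The symbolic defect of the ideal `(x³, x²y, xyz, y²z)`.
-/

namespace Pool.Agent.Q123.SD

open MvPolynomial Pool.Agent.Q123.KB Finset

/-- the `x`-exponents of the generators of `I^(n) / I ^ n` -/
def SS (n : ℕ) : Finset ℕ :=
  (Finset.range (3 * n)).filter fun a => 2 ≤ a ∧ (a ≤ n ∨ (a ≤ 2 * n ∧ a % 2 = 0) ∨ a % 2 = n % 2)

/-- the generator of `I^(n)` with `x`-exponent `a` -/
noncomputable def pt (n a : ℕ) : Fin 3 →₀ ℕ :=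
  v3 a (if a ≤ n then 2 * n - a else (3 * n - a + 1) / 2) ((2 * n - a + 1) / 2)

theorem sub_single (c : Fin 3 →₀ ℕ) (i j : Fin 3) :
    (c - (Finsupp.single i 1 : Fin 3 →₀ ℕ)) j = c j - if i = j then 1 else 0 := by
  rw [Finsupp.tsub_apply, Finsupp.single_apply]

theorem ES0 (n : ℕ) (c : Fin 3 →₀ ℕ) : ES n (c - Finsupp.single 0 1) ↔
    (2 * n ≤ c 0 - 1 + c 1 ∧ 3 * n ≤ c 0 - 1 + 2 * c 1) ∧ 2 * n ≤ c 0 - 1 + 2 * c 2 := by
  unfold ES
  rw [sub_single, sub_single, sub_single, if_pos rfl, if_neg (by decide), if_neg (by decide)]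
  rfl

theorem ES1 (n : ℕ) (c : Fin 3 →₀ ℕ) : ES n (c - Finsupp.single 1 1) ↔
    (2 * n ≤ c 0 + (c 1 - 1) ∧ 3 * n ≤ c 0 + 2 * (c 1 - 1)) ∧ 2 * n ≤ c 0 + 2 * c 2 := by
  unfold ES
  rw [sub_single, sub_single, sub_single, if_pos rfl, if_neg (by decide), if_neg (by decide)]
  rfl

theorem ES2 (n : ℕ) (c : Fin 3 →₀ ℕ) : ES n (c - Finsupp.single 2 1) ↔
    (2 * n ≤ c 0 + c 1 ∧ 3 * n ≤ c 0 + 2 * c 1) ∧ 2 * n ≤ c 0 + 2 * (c 2 - 1) := by
  unfold ES
  rw [sub_single, sub_single, sub_single, if_pos rfl, if_neg (by decide), if_neg (by decide)]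
  rfl

theorem EN_iff (n : ℕ) (c : Fin 3 →₀ ℕ) : EN n c ↔ EP n c ∨
    (1 ≤ c 0 ∧ (2 * n ≤ c 0 - 1 + c 1 ∧ 3 * n ≤ c 0 - 1 + 2 * c 1) ∧ 2 * n ≤ c 0 - 1 + 2 * c 2) ∨
    (1 ≤ c 1 ∧ (2 * n ≤ c 0 + (c 1 - 1) ∧ 3 * n ≤ c 0 + 2 * (c 1 - 1)) ∧ 2 * n ≤ c 0 + 2 * c 2) ∨
    (1 ≤ c 2 ∧ (2 * n ≤ c 0 + c 1 ∧ 3 * n ≤ c 0 + 2 * c 1) ∧ 2 * n ≤ c 0 + 2 * (c 2 - 1)) := by
  unfold EN
  refine or_congr_right ?_
  rw [← ES0, ← ES1, ← ES2]
  constructor
  · rintro ⟨i, h⟩
    fin_cases i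
    · exact Or.inl h
    · exact Or.inr (Or.inl h)
    · exact Or.inr (Or.inr h)
  · rintro (h | h | h)
    · exact ⟨0, h⟩
    · exact ⟨1, h⟩
    · exact ⟨2, h⟩

theorem mem_T {n : ℕ} (hn : 2 ≤ n) (c : Fin 3 →₀ ℕ) :
    c ∈ (SS n).image (pt n) ↔ ES n c ∧ ¬ EN n c := by
  rw [Finset.mem_image, EN_iff]
  constructor
  · rintro ⟨a, ha, rfl⟩
    unfold SS at ha
    rw [Finset.mem_filter, Finset.mem_range] at ha
    obtain ⟨h1, h2, h3⟩ := ha
    unfold ES EP pt
    simp only [v3_0, v3_1, v3_2]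
    split_ifs with h4
    · refine ⟨by omega, ?_⟩
      rintro (⟨α, β, γ, δ, g1, g2, g3, g4⟩ | h | h | h) <;> omega
    · refine ⟨by omega, ?_⟩
      rintro (⟨α, β, γ, δ, g1, g2, g3, g4⟩ | h | h | h) <;> omega
  · rintro ⟨h1, h2⟩
    rw [not_or, not_or, not_or] at h2
    obtain ⟨h2, h3, h4, h5⟩ := h2
    obtain ⟨⟨k1, k2⟩, k3⟩ := h1
    have e2 : c 2 = (2 * n - c 0 + 1) / 2 := by omega
    have e1 : c 1 = if c 0 ≤ n then 2 * n - c 0 else (3 * n - c 0 + 1) / 2 := by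
      split_ifs with h6
      · omega
      · omega
    refine ⟨c 0, ?_, ext3 rfl e1.symm e2.symm⟩
    unfold SS
    rw [Finset.mem_filter, Finset.mem_range]
    have c3 : c 0 < 3 * n := by
      by_contra h6
      exact h2 ⟨0, 0, 0, n, by omega, by omega, by omega, by omega⟩
    have c2 : 2 ≤ c 0 := by
      by_contra h6
      by_cases h7 : c 0 = 0
      · exact h2 ⟨n, 0, 0, 0, by omega, by omega, by omega, by omega⟩
      · exact h2 ⟨n - 1, 1, 0, 0, by omega, by omega, by omega, by omega⟩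
    refine ⟨c3, c2, ?_⟩
    by_cases h6 : c 0 ≤ n
    · exact Or.inl h6
    · rw [if_neg h6] at e1
      right
      omega

theorem sdef_eq (K : Type*) [Field K] {n : ℕ} (hn : 2 ≤ n) : sdef (II K) n = (SS n).card := by
  unfold sdef
  rw [finrank_quot _ _ (ES n) (EN n) (fun f => ?_) (fun f => ?_) ((SS n).image (pt n)) (mem_T hn)]
  · refine Finset.card_image_of_injective _ fun a b h => ?_
    have := DFunLike.congr_fun h 0
    exact this
  · rw [Submodule.restrictScalars_mem]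
    exact mem_symb n f
  · rw [Submodule.restrictScalars_mem]
    exact mem_low n f

theorem card_even {m : ℕ} (hm : 1 ≤ m) : (SS (2 * m)).card = 4 * m - 2 := by
  have h : SS (2 * m) = (Finset.Icc 2 (2 * m)) ∪
      (Finset.range (2 * m - 1)).image (fun j => 2 * m + 2 + 2 * j) := by
    ext a
    unfold SS
    rw [Finset.mem_filter, Finset.mem_range, Finset.mem_union, Finset.mem_Icc, Finset.mem_image]
    constructor
    · rintro ⟨h1, h2, h3⟩
      by_cases h4 : a ≤ 2 * m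
      · exact Or.inl ⟨h2, h4⟩
      · right
        exact ⟨(a - (2 * m + 2)) / 2, Finset.mem_range.2 (by omega), by omega⟩
    · rintro (h | ⟨j, hj, rfl⟩)
      · omega
      · rw [Finset.mem_range] at hj; omega
  rw [h, Finset.card_union_of_disjoint, Nat.card_Icc, Finset.card_image_of_injective,
    Finset.card_range]
  · omega
  · intro i j hij
    simp only at hij
    omega
  · rw [Finset.disjoint_left]
    intro a ha hb
    rw [Finset.mem_Icc] at ha
    obtain ⟨j, _, rfl⟩ := Finset.mem_image.1 hb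
    omega

theorem card_odd (m : ℕ) : (SS (2 * m + 1)).card = 5 * m + 1 := by
  have h : SS (2 * m + 1) = (Finset.Icc 2 (4 * m + 2)) ∪
      (Finset.range m).image (fun j => 4 * m + 3 + 2 * j) := by
    ext a
    unfold SS
    rw [Finset.mem_filter, Finset.mem_range, Finset.mem_union, Finset.mem_Icc, Finset.mem_image]
    constructor
    · rintro ⟨h1, h2, h3⟩
      by_cases h4 : a ≤ 4 * m + 2
      · exact Or.inl ⟨h2, h4⟩
      · right
        exact ⟨(a - (4 * m + 3)) / 2, Finset.mem_range.2 (by omega), by omega⟩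
    · rintro (h | ⟨j, hj, rfl⟩)
      · omega
      · rw [Finset.mem_range] at hj; omega
  rw [h, Finset.card_union_of_disjoint, Nat.card_Icc, Finset.card_image_of_injective,
    Finset.card_range]
  · omega
  · intro i j hij
    simp only at hij
    omega
  · rw [Finset.disjoint_left]
    intro a ha hb
    rw [Finset.mem_Icc] at ha
    obtain ⟨j, _, rfl⟩ := Finset.mem_image.1 hb
    omega

end Pool.Agent.Q123.SD
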