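import Pool.Agent.Q123.SD.Basic

set_option autoImplicit false

/-!
The symbolic powers of the ideal `(x³, x²y, xyz, y²z) = (x³, xy, y²) ∩ (x², z)`.
-/

namespace Pool.Agent.Q123.SD

open MvPolynomial Pool.Agent.Q123.KB Finset
open scoped Pointwise

/-- the exponent vector `(a, b, e)` -/
noncomputable def v3 (a b e : ℕ) : Fin 3 →₀ ℕ := Finsupp.equivFunOnFinite.symm ![a, b, e]

@[simp] theorem v3_0 (a b e : ℕ) : v3 a b e 0 = a := rfl
@[simp] theorem v3_1 (a b e : ℕ) : v3 a b e 1 = b := rfl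
@[simp] theorem v3_2 (a b e : ℕ) : v3 a b e 2 = e := rfl

theorem ext3 {c d : Fin 3 →₀ ℕ} (h0 : c 0 = d 0) (h1 : c 1 = d 1) (h2 : c 2 = d 2) : c = d := by
  ext i
  fin_cases i
  · exact h0
  · exact h1
  · exact h2

theorem le3 {c d : Fin 3 →₀ ℕ} : c ≤ d ↔ c 0 ≤ d 0 ∧ c 1 ≤ d 1 ∧ c 2 ≤ d 2 := by
  constructor
  · intro h; exact ⟨h 0, h 1, h 2⟩
  · rintro ⟨h0, h1, h2⟩ i
    fin_cases i
    · exact h0
    · exact h1
    · exact h2

/-- the exponents of `x³, x²y, xyz, y²z` -/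
noncomputable def gens : Finset (Fin 3 →₀ ℕ) := {v3 3 0 0, v3 2 1 0, v3 1 1 1, v3 0 2 1}

/-- the ideal `(x³, x²y, xyz, y²z)` -/
noncomputable def II (K : Type*) [Field K] : Ideal (MvPolynomial (Fin 3) K) :=
  monIdeal K (gens : Set (Fin 3 →₀ ℕ))

variable {K : Type*} [Field K]

theorem mem_sums (n : ℕ) (c : Fin 3 →₀ ℕ) : c ∈ sums (gens : Set (Fin 3 →₀ ℕ)) n ↔
    ∃ α β γ δ : ℕ, α + β + γ + δ = n ∧ c 0 = β + 2 * γ + 3 * δ ∧ c 1 = 2 * α + β + γ ∧
      c 2 = α + β := by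
  induction n generalizing c with
  | zero =>
    constructor
    · intro h
      have h1 : c = 0 := h
      subst h1
      exact ⟨0, 0, 0, 0, rfl, rfl, rfl, rfl⟩
    · rintro ⟨α, β, γ, δ, h, h0, h1, h2⟩
      have : c = 0 := ext3 (by rw [h0]; simp; omega) (by rw [h1]; simp; omega)
        (by rw [h2]; simp; omega)
      rw [this]
      rfl
  | succ n ih =>
    constructor
    · rintro ⟨d, hd, s, hs, rfl⟩
      obtain ⟨α, β, γ, δ, h, h0, h1, h2⟩ := (ih d).1 hd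
      have hs' : s ∈ gens := by exact_mod_cast hs
      unfold gens at hs'
      simp only [Finset.mem_insert, Finset.mem_singleton] at hs'
      rcases hs' with rfl | rfl | rfl | rfl
      · exact ⟨α, β, γ, δ + 1, by omega, by simp; omega, by simp; omega, by simp; omega⟩
      · exact ⟨α, β, γ + 1, δ, by omega, by simp; omega, by simp; omega, by simp; omega⟩
      · exact ⟨α, β + 1, γ, δ, by omega, by simp; omega, by simp; omega, by simp; omega⟩
      · exact ⟨α + 1, β, γ, δ, by omega, by simp; omega, by simp; omega, by simp; omega⟩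
    · rintro ⟨α, β, γ, δ, h, h0, h1, h2⟩
      have hg : ∀ s ∈ gens, ∀ d : Fin 3 →₀ ℕ, d ∈ sums (gens : Set (Fin 3 →₀ ℕ)) n → d + s = c →
          c ∈ sums (gens : Set (Fin 3 →₀ ℕ)) (n + 1) :=
        fun s hs d hd he => ⟨d, hd, s, by exact_mod_cast hs, he⟩
      rcases α with _ | α
      · rcases β with _ | β
        · rcases γ with _ | γ
          · rcases δ with _ | δ
            · omega
            · exact hg (v3 3 0 0) (by simp [gens]) (v3 (3 * δ) 0 0)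
                ((ih _).2 ⟨0, 0, 0, δ, by omega, by simp, by simp, by simp⟩)
                (ext3 (by simp; omega) (by simp; omega) (by simp; omega))
          · exact hg (v3 2 1 0) (by simp [gens]) (v3 (2 * γ + 3 * δ) γ 0)
              ((ih _).2 ⟨0, 0, γ, δ, by omega, by simp, by simp, by simp⟩)
              (ext3 (by simp; omega) (by simp; omega) (by simp; omega))
        · exact hg (v3 1 1 1) (by simp [gens]) (v3 (β + 2 * γ + 3 * δ) (β + γ) β)
            ((ih _).2 ⟨0, β, γ, δ, by omega, by simp, by simp, by simp⟩)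
            (ext3 (by simp; omega) (by simp; omega) (by simp; omega))
      · exact hg (v3 0 2 1) (by simp [gens]) (v3 (β + 2 * γ + 3 * δ) (2 * α + β + γ) (α + β))
          ((ih _).2 ⟨α, β, γ, δ, by omega, by simp, by simp, by simp⟩)
          (ext3 (by simp; omega) (by simp; omega) (by simp; omega))

/-- exponents of the power -/
def EP (n : ℕ) (c : Fin 3 →₀ ℕ) : Prop :=
  ∃ α β γ δ : ℕ, α + β + γ + δ = n ∧ β + 2 * γ + 3 * δ ≤ c 0 ∧ 2 * α + β + γ ≤ c 1 ∧ α + β ≤ c 2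

theorem mem_pow (n : ℕ) (f : MvPolynomial (Fin 3) K) :
    f ∈ II K ^ n ↔ ∀ c ∈ f.support, EP n c := by
  unfold II
  rw [pow_eq, mem_monIdeal]
  refine forall₂_congr fun c _ => ?_
  constructor
  · rintro ⟨s, hs, hle⟩
    obtain ⟨α, β, γ, δ, h, h0, h1, h2⟩ := (mem_sums n s).1 hs
    obtain ⟨g0, g1, g2⟩ := le3.1 hle
    exact ⟨α, β, γ, δ, h, by omega, by omega, by omega⟩
  · rintro ⟨α, β, γ, δ, h, h0, h1, h2⟩
    refine ⟨v3 (β + 2 * γ + 3 * δ) (2 * α + β + γ) (α + β), (mem_sums n _).2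
      ⟨α, β, γ, δ, h, rfl, rfl, rfl⟩, le3.2 ⟨h0, h1, h2⟩⟩

/-- exponents of the symbolic power -/
def ES (n : ℕ) (c : Fin 3 →₀ ℕ) : Prop :=
  (2 * n ≤ c 0 + c 1 ∧ 3 * n ≤ c 0 + 2 * c 1) ∧ 2 * n ≤ c 0 + 2 * c 2

theorem EP_ES {n : ℕ} {c : Fin 3 →₀ ℕ} (h : EP n c) : ES n c := by
  obtain ⟨α, β, γ, δ, h, h0, h1, h2⟩ := h
  exact ⟨⟨by omega, by omega⟩, by omega⟩

theorem mem_one (f : MvPolynomial (Fin 3) K) : f ∈ II K ↔ ∀ c ∈ f.support, ES 1 c := by
  rw [← pow_one (II K), mem_pow]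
  refine forall₂_congr fun c _ => ⟨EP_ES, ?_⟩
  rintro ⟨⟨h1, h2⟩, h3⟩
  by_cases k3 : 3 ≤ c 0
  · exact ⟨0, 0, 0, 1, by omega, by omega, by omega, by omega⟩
  by_cases k2 : 2 ≤ c 0
  · exact ⟨0, 0, 1, 0, by omega, by omega, by omega, by omega⟩
  by_cases k1 : 1 ≤ c 0
  · exact ⟨0, 1, 0, 0, by omega, by omega, by omega, by omega⟩
  · exact ⟨1, 0, 0, 0, by omega, by omega, by omega, by omega⟩

theorem U1_up (n : ℕ) : ∀ c c' : Fin 3 →₀ ℕ, (2 * n ≤ c 0 + c 1 ∧ 3 * n ≤ c 0 + 2 * c 1) →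
    (∀ i, i ≠ (2 : Fin 3) → c i ≤ c' i) → (2 * n ≤ c' 0 + c' 1 ∧ 3 * n ≤ c' 0 + 2 * c' 1) := by
  intro c c' h hle
  have h0 := hle 0 (by decide)
  have h1 := hle 1 (by decide)
  omega

theorem U2_up (n : ℕ) : ∀ c c' : Fin 3 →₀ ℕ, (2 * n ≤ c 0 + 2 * c 2) →
    (∀ i, i ≠ (1 : Fin 3) → c i ≤ c' i) → (2 * n ≤ c' 0 + 2 * c' 2) := by
  intro c c' h hle
  have h0 := hle 0 (by decide)
  have h1 := hle 2 (by decide)
  omega

theorem ass1 : pr K (2 : Fin 3) ∈ associatedPrimes (MvPolynomial (Fin 3) K)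
    (MvPolynomial (Fin 3) K ⧸ II K) := by
  rw [mem_ass_iff]
  refine ⟨pr_prime _, monomial (v3 2 0 0) 1, fun t => ?_⟩
  rw [mem_pr, mem_one, mul_mono_iff]
  refine forall₂_congr fun c _ => ?_
  unfold ES
  simp only [Finsupp.add_apply, v3_0, v3_1, v3_2]
  constructor
  · rintro ⟨i, hi, h⟩
    fin_cases i
    · simp only [Fin.zero_eta] at h; omega
    · simp only [Fin.mk_one] at h; omega
    · exact absurd rfl hi
  · rintro ⟨⟨h1, h2⟩, h3⟩
    by_cases h0 : c 0 = 0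
    · exact ⟨1, by decide, by omega⟩
    · exact ⟨0, by decide, h0⟩

theorem ass2 : pr K (1 : Fin 3) ∈ associatedPrimes (MvPolynomial (Fin 3) K)
    (MvPolynomial (Fin 3) K ⧸ II K) := by
  rw [mem_ass_iff]
  refine ⟨pr_prime _, monomial (v3 1 1 0) 1, fun t => ?_⟩
  rw [mem_pr, mem_one, mul_mono_iff]
  refine forall₂_congr fun c _ => ?_
  unfold ES
  simp only [Finsupp.add_apply, v3_0, v3_1, v3_2]
  constructor
  · rintro ⟨i, hi, h⟩
    fin_cases i
    · simp only [Fin.zero_eta] at h; omega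
    · exact absurd rfl hi
    · change c 2 ≠ 0 at h; omega
  · rintro ⟨⟨h1, h2⟩, h3⟩
    by_cases h0 : c 0 = 0
    · exact ⟨2, by decide, by omega⟩
    · exact ⟨0, by decide, h0⟩

theorem ass_le {p : Ideal (MvPolynomial (Fin 3) K)}
    (hp : p ∈ associatedPrimes (MvPolynomial (Fin 3) K) (MvPolynomial (Fin 3) K ⧸ II K)) :
    p ≤ pr K (2 : Fin 3) ∨ p ≤ pr K (1 : Fin 3) := by
  rw [mem_ass_iff] at hp
  obtain ⟨hp1, g, hg⟩ := hp
  have h1 : g ∉ II K := by
    intro h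
    apply (Ideal.ne_top_iff_one p).1 hp1.1
    rw [hg, one_mul]
    exact h
  by_cases h2 : ∀ c ∈ g.support, (2 * 1 ≤ c 0 + c 1 ∧ 3 * 1 ≤ c 0 + 2 * c 1)
  · right
    intro t ht
    by_contra h3
    apply h1
    rw [mem_one]
    intro c hc
    refine ⟨h2 c hc, ?_⟩
    refine sat (z := 1) (U := fun c => 2 * 1 ≤ c 0 + 2 * c 2) (U2_up 1) (notMem_pr h3) ?_ c hc
    intro c hc
    exact ((mem_one _).1 ((hg t).1 ht) c hc).2
  · left
    intro t ht
    by_contra h3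
    apply h2
    refine sat (z := 2) (U := fun c => 2 * 1 ≤ c 0 + c 1 ∧ 3 * 1 ≤ c 0 + 2 * c 1) (U1_up 1)
      (notMem_pr h3) ?_
    intro c hc
    exact ((mem_one _).1 ((hg t).1 ht) c hc).1

theorem mono_notMem_pr {z : Fin 3} {s : Fin 3 →₀ ℕ} (hs : ∀ i, i ≠ z → s i = 0) :
    (monomial s (1 : K)) ∉ pr K z := by
  rw [mem_pr]
  push Not
  refine ⟨s, ?_, hs⟩
  rw [mem_support_iff, coeff_monomial, if_pos rfl]
  exact one_ne_zero

theorem mem_symb (n : ℕ) (f : MvPolynomial (Fin 3) K) :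
    f ∈ symb (II K) n ↔ ∀ c ∈ f.support, ES n c := by
  constructor
  · intro hf c hc
    constructor
    · obtain ⟨s, hs, hs'⟩ := hf _ ass1
      exact sat (z := 2) (U := fun c => 2 * n ≤ c 0 + c 1 ∧ 3 * n ≤ c 0 + 2 * c 1) (U1_up n)
        (notMem_pr hs) (fun c hc => (EP_ES ((mem_pow n _).1 hs' c hc)).1) c hc
    · obtain ⟨s, hs, hs'⟩ := hf _ ass2
      exact sat (z := 1) (U := fun c => 2 * n ≤ c 0 + 2 * c 2) (U2_up n)
        (notMem_pr hs) (fun c hc => (EP_ES ((mem_pow n _).1 hs' c hc)).2) c hc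
  · intro hf p hp
    rcases ass_le hp with h | h
    · refine ⟨monomial (v3 0 0 n) 1, fun h1 => mono_notMem_pr (z := 2) (K := K) ?_ (h h1), ?_⟩
      · intro i hi
        fin_cases i
        · rfl
        · rfl
        · exact absurd rfl hi
      · rw [mul_comm, mem_pow, mul_mono_iff]
        intro c hc
        obtain ⟨⟨h1, h2⟩, h3⟩ := hf c hc
        by_cases k1 : c 0 ≤ n
        · exact ⟨n - c 0, c 0, 0, 0, by omega, by simp, by simp; omega, by simp; omega⟩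
        by_cases k2 : 3 * n ≤ c 0
        · exact ⟨0, 0, 0, n, by omega, by simp; omega, by simp, by simp⟩
        · exact ⟨0, n - (c 0 - n) / 2, 0, (c 0 - n) / 2, by omega, by simp; omega, by simp; omega,
            by simp; omega⟩
    · refine ⟨monomial (v3 0 (2 * n) 0) 1, fun h1 => mono_notMem_pr (z := 1) (K := K) ?_ (h h1), ?_⟩
      · intro i hi
        fin_cases i
        · rfl
        · exact absurd rfl hi
        · rfl
      · rw [mul_comm, mem_pow, mul_mono_iff]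
        intro c hc
        obtain ⟨⟨h1, h2⟩, h3⟩ := hf c hc
        by_cases k1 : 2 * n ≤ c 0
        · exact ⟨0, 0, n, 0, by omega, by simp; omega, by simp; omega, by simp⟩
        · exact ⟨n - c 0 / 2, 0, c 0 / 2, 0, by omega, by simp; omega, by simp; omega,
            by simp; omega⟩

/-- exponents of `I ^ n + m I^(n)` -/
def EN (n : ℕ) (c : Fin 3 →₀ ℕ) : Prop :=
  EP n c ∨ ∃ i, 1 ≤ c i ∧ ES n (c - Finsupp.single i 1)

theorem mem_low (n : ℕ) (f : MvPolynomial (Fin 3) K) :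
    f ∈ II K ^ n ⊔ maxIdeal K 3 * symb (II K) n ↔ ∀ c ∈ f.support, EN n c := by
  have h1 : symb (II K) n = monIdeal K {c | ES n c} := by
    ext f
    rw [mem_symb, mem_monIdeal]
    refine forall₂_congr fun c _ => ⟨fun h => ⟨c, h, le_refl _⟩, ?_⟩
    rintro ⟨s, ⟨⟨h1, h2⟩, h3⟩, hle⟩
    obtain ⟨g0, g1, g2⟩ := le3.1 hle
    exact ⟨⟨by omega, by omega⟩, by omega⟩
  have h2 : maxIdeal K 3 = monIdeal K {s | ∃ i, s = Finsupp.single i 1} := by
    unfold maxIdeal monIdeal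
    congr 1
    ext p
    constructor
    · rintro ⟨i, rfl⟩
      exact ⟨_, ⟨i, rfl⟩, rfl⟩
    · rintro ⟨_, ⟨i, rfl⟩, rfl⟩
      exact ⟨i, rfl⟩
  have h3 : II K ^ n = monIdeal K (sums (gens : Set (Fin 3 →₀ ℕ)) n) := pow_eq _ _
  rw [h1, h2, monIdeal_mul, h3]
  unfold monIdeal
  rw [← Ideal.span_union, ← Set.image_union]
  rw [mem_ideal_span_monomial_image]
  refine forall₂_congr fun c _ => ?_
  constructor
  · rintro ⟨s, hs | ⟨_, ⟨i, rfl⟩, d, hd, rfl⟩, hle⟩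
    · left
      obtain ⟨α, β, γ, δ, h, h0, h1, h2⟩ := (mem_sums n s).1 hs
      obtain ⟨g0, g1, g2⟩ := le3.1 hle
      exact ⟨α, β, γ, δ, h, by omega, by omega, by omega⟩
    · right
      refine ⟨i, ?_, ?_⟩
      · have := hle i
        rw [Finsupp.add_apply, Finsupp.single_eq_same] at this
        omega
      · have h5 : d ≤ c - Finsupp.single i 1 := by
          intro j
          have := hle j
          rw [Finsupp.add_apply] at this
          rw [Finsupp.tsub_apply]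
          omega
        obtain ⟨⟨h1, h2⟩, h3⟩ := hd
        obtain ⟨g0, g1, g2⟩ := le3.1 h5
        exact ⟨⟨by omega, by omega⟩, by omega⟩
  · rintro (⟨α, β, γ, δ, h, h0, h1, h2⟩ | ⟨i, h4, h5⟩)
    · exact ⟨v3 (β + 2 * γ + 3 * δ) (2 * α + β + γ) (α + β), Or.inl ((mem_sums n _).2
        ⟨α, β, γ, δ, h, rfl, rfl, rfl⟩), le3.2 ⟨h0, h1, h2⟩⟩
    · refine ⟨Finsupp.single i 1 + (c - Finsupp.single i 1), Or.inr ⟨_, ⟨i, rfl⟩, _, h5, rfl⟩, ?_⟩
      intro j
      rw [Finsupp.add_apply, Finsupp.tsub_apply, Finsupp.single_apply]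
      split_ifs with h6
      · rw [← h6]; omega
      · omega

end Pool.Agent.Q123.SD
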